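import Pool.Agent.helper7.FI2.SpecH2

set_option autoImplicit false

/-!
# FI2, HEX: a nonabelian group acting freely needs rank 2
-/

namespace Pool.Agent.FI2

open Pool.Agent.helper58.DC Pool.Agent.DI Pool.Agent.GR Pool.Agent.OB Pool.Agent.DR Pool.Agent.FI

theorem HEX_pow {G : Type} [Group G] {p c : ℕ} (hp : p.Prime) (z y : G) (hz : orderOf z = p ^ (c + 1)) (a : ℤ)
    (hy : y = z ^ a) (hyp : y ^ p = 1) : ∃ n : ℤ, y = (z ^ p ^ c) ^ n := by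
  have h1 : z ^ (a * p) = 1 := by
    rw [zpow_mul, ← hy, zpow_natCast]
    exact hyp
  have h2 : ((orderOf z : ℕ) : ℤ) ∣ a * p := orderOf_dvd_iff_zpow_eq_one.2 h1
  rw [hz] at h2
  have hp0 : (p : ℤ) ≠ 0 := by exact_mod_cast hp.ne_zero
  have h3 : ((p : ℤ) ^ c) ∣ a := by
    have h4 : (p : ℤ) ^ c * p ∣ a * p := by
      have h5 : ((p ^ (c + 1) : ℕ) : ℤ) = (p : ℤ) ^ c * p := by push_cast; ring
      rw [← h5]
      exact h2
    exact Int.dvd_of_mul_dvd_mul_right hp0 h4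
  obtain ⟨n, hn⟩ := h3
  refine ⟨n, ?_⟩
  rw [hy, hn, zpow_mul]
  congr 1
  rw [← Nat.cast_pow, zpow_natCast]

theorem HEX_int {G : Type} [Group G] {p c : ℕ} (hp : p.Prime) (z u w : G) (hz : orderOf z = p ^ (c + 1))
    (hu : orderOf u = p ^ (c + 1)) (hw : u ^ p ^ c = w) (hw0 : ∀ n : ℤ, (z ^ p ^ c) ^ n ≠ w) (y : G) (a b : ℤ)
    (h1 : y = z ^ a) (h2 : y = u ^ b) : y = 1 := by
  by_contra hy1
  have hpf : Fact p.Prime := ⟨hp⟩
  -- the order of `y`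
  have h3 : y ^ p ^ (c + 1) = 1 := by
    rw [h1, ← zpow_natCast, ← zpow_mul, mul_comm, zpow_mul, zpow_natCast, ← hz, pow_orderOf_eq_one, one_zpow]
  have h4 : orderOf y ∣ p ^ (c + 1) := orderOf_dvd_of_pow_eq_one h3
  obtain ⟨k, hk, hk2⟩ := (Nat.dvd_prime_pow hp).1 h4
  have hk0 : k ≠ 0 := by
    intro h
    rw [h, pow_zero, orderOf_eq_one_iff] at hk2
    exact hy1 hk2
  obtain ⟨m, rfl⟩ : ∃ m, k = m + 1 := ⟨k - 1, by omega⟩
  have h5 : (y ^ p ^ m) ^ p = 1 := by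
    rw [← pow_mul, ← pow_succ, ← hk2, pow_orderOf_eq_one]
  have h6 : y ^ p ^ m ≠ 1 := by
    intro h
    have h7 := orderOf_dvd_of_pow_eq_one h
    rw [hk2] at h7
    have h8 := (Nat.pow_dvd_pow_iff_le_right hp.one_lt).1 h7
    omega
  obtain ⟨n1, hn1⟩ := HEX_pow hp z (y ^ p ^ m) hz (a * (p ^ m : ℕ)) (by rw [h1, zpow_mul, zpow_natCast]) h5
  obtain ⟨n2, hn2⟩ := HEX_pow hp u (y ^ p ^ m) hu (b * (p ^ m : ℕ)) (by rw [h2, zpow_mul, zpow_natCast]) h5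
  rw [hw] at hn2
  have hwp : w ^ p = 1 := by
    rw [← hw, ← pow_mul, ← pow_succ, ← hu, pow_orderOf_eq_one]
  have hpn : ¬ (p : ℤ) ∣ n2 := by
    rintro ⟨e, he⟩
    apply h6
    rw [hn2, he, zpow_mul, zpow_natCast, hwp, one_zpow]
  have hcop : IsCoprime (p : ℤ) n2 := (Prime.coprime_iff_not_dvd (Nat.prime_iff_prime_int.1 hp)).2 hpn
  obtain ⟨r, t, hrt⟩ := hcop
  apply hw0 (n1 * t)
  rw [zpow_mul, ← hn1, hn2, ← zpow_mul]
  have h9 : n2 * t = 1 - r * p := by linarith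
  rw [h9, zpow_sub, zpow_one, mul_comm r, zpow_mul, zpow_natCast, hwp, one_zpow, inv_one, mul_one]

theorem HEX_com {G : Type} [Group G] (s t w : G) (i j : ℤ) (hs : s⁻¹ * w * s⁻¹⁻¹ = w ^ i)
    (ht : t⁻¹ * w * t⁻¹⁻¹ = w ^ j) : s * t * s⁻¹ * t⁻¹ * w = w * (s * t * s⁻¹ * t⁻¹) := by
  have h1 : (s * t)⁻¹ * w * (s * t) = w ^ (i * j) := by
    have e : (s * t)⁻¹ * w * (s * t) = t⁻¹ * (s⁻¹ * w * s⁻¹⁻¹) * t⁻¹⁻¹ := by group
    rw [e, hs, ← conj_zpow, ht, ← zpow_mul, mul_comm]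
  have h2 : (t * s)⁻¹ * w * (t * s) = w ^ (i * j) := by
    have e : (t * s)⁻¹ * w * (t * s) = s⁻¹ * (t⁻¹ * w * t⁻¹⁻¹) * s⁻¹⁻¹ := by group
    rw [e, ht, ← conj_zpow, hs, ← zpow_mul]
  have h3 : (s * t)⁻¹ * w * (s * t) = (t * s)⁻¹ * w * (t * s) := h1.trans h2.symm
  have e1 : w * (s * t * s⁻¹ * t⁻¹) = (s * t) * ((s * t)⁻¹ * w * (s * t)) * (t * s)⁻¹ := by group
  rw [e1, h3]
  group

theorem HEX : HEX_stmt := by
  classical
  intro p hp G _ _ D C T hD hab hT hfree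
  by_cases hC : ∀ s ∈ T, ∀ t ∈ T, s * t * s⁻¹ * t⁻¹ ∈ C
  · exact Or.inl hC
  right
  push Not at hC
  obtain ⟨s, hs, t, ht, hst⟩ := hC
  intro z hz
  have hpf : Fact p.Prime := ⟨hp⟩
  obtain ⟨c, hc⟩ := IsPGroup.iff_orderOf.1 hD ⟨z, hz⟩
  rw [Subgroup.orderOf_mk] at hc
  rcases Nat.eq_zero_or_pos c with h0 | h0
  · rw [hc, h0]
    simp only [pow_zero, one_pow]
    exact Nat.card_pos
  obtain ⟨c, rfl⟩ : ∃ c', c = c' + 1 := ⟨c - 1, by omega⟩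
  set w₀ := z ^ p ^ c with hw₀
  have hw₀D : w₀ ∈ D := D.pow_mem hz _
  have hw₀1 : w₀ ≠ 1 := by
    intro h
    have h7 := orderOf_dvd_of_pow_eq_one h
    rw [hc] at h7
    have h8 := (Nat.pow_dvd_pow_iff_le_right hp.one_lt).1 h7
    omega
  have hw₀p : w₀ ^ p = 1 := by
    rw [hw₀, ← pow_mul, ← pow_succ, ← hc, pow_orderOf_eq_one]
  have hconj : ∀ r ∈ T, r⁻¹ * w₀ * r⁻¹⁻¹ ∈ D ∧ (r⁻¹ * w₀ * r⁻¹⁻¹) ^ p = 1 ∧
      ∃ u ∈ D, u ^ p ^ c = r⁻¹ * w₀ * r⁻¹⁻¹ := by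
    intro r hr
    have h1 : ∀ x ∈ D, r⁻¹ * x * r⁻¹⁻¹ ∈ D := by
      intro x hx
      have h2 : r⁻¹ ∈ nz D := hT (T.inv_mem hr)
      exact (Subgroup.mem_normalizer_iff.1 h2 x).1 hx
    refine ⟨h1 _ hw₀D, ?_, r⁻¹ * z * r⁻¹⁻¹, h1 _ hz, ?_⟩
    · rw [conj_pow, hw₀p]; group
    · rw [conj_pow]
  by_cases hall : ∀ w ∈ D, w ^ p = 1 → (∃ u ∈ D, u ^ p ^ c = w) → ∃ n : ℤ, w₀ ^ n = w
  · exfalso
    apply hst
    obtain ⟨a1, a2, a3⟩ := hconj s hs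
    obtain ⟨i, hi⟩ := hall _ a1 a2 a3
    obtain ⟨b1, b2, b3⟩ := hconj t ht
    obtain ⟨j, hj⟩ := hall _ b1 b2 b3
    have hcm := HEX_com s t w₀ i j hi.symm hj.symm
    exact hfree _ (T.mul_mem (T.mul_mem (T.mul_mem hs ht) (T.inv_mem hs)) (T.inv_mem ht)) w₀ hw₀D hw₀1 hcm
  · push Not at hall
    obtain ⟨w, hwD, hwp, ⟨u, huD, huw⟩, hwn⟩ := hall
    have hw1 : w ≠ 1 := by
      intro h
      apply hwn 0
      rw [h, zpow_zero]
    have hu : orderOf u = p ^ (c + 1) := by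
      apply orderOf_eq_prime_pow
      · rw [huw]; exact hw1
      · rw [pow_succ, pow_mul, huw, hwp]
    set f : Fin (p ^ (c + 1)) × Fin (p ^ (c + 1)) → D := fun q => ⟨z ^ (q.1 : ℕ) * u ^ (q.2 : ℕ),
      D.mul_mem (D.pow_mem hz _) (D.pow_mem huD _)⟩ with hf
    have hinj : Function.Injective f := by
      rintro ⟨i, j⟩ ⟨i', j'⟩ h
      have h1 : z ^ (i : ℕ) * u ^ (j : ℕ) = z ^ (i' : ℕ) * u ^ (j' : ℕ) := congrArg Subtype.val h
      have h2 : z ^ ((i : ℤ) - (i' : ℤ)) = u ^ ((j' : ℤ) - (j : ℤ)) := by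
        have h3 : z ^ (i' : ℤ) * z ^ ((i : ℤ) - (i' : ℤ)) = z ^ (i' : ℤ) * u ^ ((j' : ℤ) - (j : ℤ)) := by
          rw [← zpow_add, zpow_sub u, ← mul_assoc]
          have e : (i' : ℤ) + ((i : ℤ) - (i' : ℤ)) = (i : ℤ) := by ring
          rw [e, eq_mul_inv_iff_mul_eq]
          exact_mod_cast h1
        exact mul_left_cancel h3
      have h4 := HEX_int hp z u w hc hu huw hwn (z ^ ((i : ℤ) - (i' : ℤ))) _ _ rfl h2
      have h5 : u ^ ((j' : ℤ) - (j : ℤ)) = 1 := by rw [← h2]; exact h4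
      have h6 := orderOf_dvd_iff_zpow_eq_one.2 h4
      have h7 := orderOf_dvd_iff_zpow_eq_one.2 h5
      rw [hc] at h6
      rw [hu] at h7
      have hi := i.2
      have hi' := i'.2
      have hj := j.2
      have hj' := j'.2
      have h8 : (i : ℤ) - (i' : ℤ) = 0 := by
        apply Int.eq_zero_of_abs_lt_dvd h6
        rw [abs_lt]
        constructor <;> omega
      have h9 : (j' : ℤ) - (j : ℤ) = 0 := by
        apply Int.eq_zero_of_abs_lt_dvd h7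
        rw [abs_lt]
        constructor <;> omega
      have h10 : i = i' := Fin.ext (by omega)
      have h11 : j = j' := Fin.ext (by omega)
      rw [h10, h11]
    have hcard := Nat.card_le_card_of_injective f hinj
    rw [Nat.card_prod, Nat.card_fin] at hcard
    rw [hc, sq]
    exact hcard

end Pool.Agent.FI2
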